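import Pool.Agent.H343.QF.StG

set_option autoImplicit false

/-! QF-G7 (helper665): distances of corners. -/

namespace Pool.Agent.H665.QF.G7

open Pool.Agent.TH68 Pool.Agent.Helper97.Hyp Pool.Agent.H343.AN Pool.Agent.H343.QF

theorem cor2 : S_cor1 → S_cor2 := by
  intro hcor Γ _ W a b δ D R X lam s E Λ h i k hik
  have hg := h.good
  have hD : 1 ≤ D := hg.one.trans hg.le
  have hR := h.hR
  have h1 := (@hcor Γ _ W a b δ D R X lam s E Λ h).1
  have hpow : ∀ n : ℕ, (W.ℓ (a ^ n) : ℝ) = n := by
    intro n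
    have h2 := hg.pow n
    rw [zpow_natCast, Nat.abs_cast] at h2
    exact_mod_cast h2
  -- one step
  have hst : ∀ j : ℤ, dist (pt W (X j)) (pt W (X (j + 1))) ≤ lam j + R ∧
      lam j - R ≤ dist (pt W (X j)) (pt W (X (j + 1))) := by
    intro j
    have e1 : dist (pt W (X j)) (pt W (X (j + 1))) = (W.ℓ (a ^ lam j * s j) : ℝ) := by
      rw [dist_def, out_pt, out_pt, h.cor.step j]
      congr 2
      group
    have e2 : (W.ℓ (a ^ lam j * s j) : ℝ) ≤ W.ℓ (a ^ lam j) + W.ℓ (s j) := by
      exact_mod_cast W.mul_le _ _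
    have e3 : (W.ℓ (a ^ lam j) : ℝ) ≤ W.ℓ (a ^ lam j * s j) + W.ℓ (s j) := by
      have h3 := W.mul_le (a ^ lam j * s j) (s j)⁻¹
      rw [mul_inv_cancel_right, W.inv'] at h3
      exact_mod_cast h3
    have e4 := h.cor.short j
    rw [hpow] at e2 e3
    rw [e1]
    constructor <;> linarith
  induction k, hik using Int.le_induction with
  | base => simp
  | succ k hik ih =>
    obtain ⟨ih1, ih2⟩ := ih
    have h2 := hst k
    have h3 := h1 i k (k + 1) 0 hik (by omega)
    rw [zpow_zero, mul_one] at h3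
    unfold exc at h3
    have h4 := dist_triangle (pt W (X i)) (pt W (X k)) (pt W (X (k + 1)))
    have h5 : ∑ j ∈ Finset.Ico i (k + 1), (lam j : ℝ) =
        ∑ j ∈ Finset.Ico i k, (lam j : ℝ) + lam k := by
      have e : Finset.Ico i (k + 1) = insert k (Finset.Ico i k) := by
        ext x
        simp only [Finset.mem_Ico, Finset.mem_insert]
        omega
      rw [e, Finset.sum_insert (by simp), add_comm]
    rw [h5]
    push_cast
    constructor
    · nlinarith [h2.2]
    · nlinarith [h2.1]

end Pool.Agent.H665.QF.G7
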